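import Pool.Agent.V1146.HKS.Main

/-!
# Gorenstein local domains with `e_HK = s + (1 - s) e` and arbitrarily large multiplicity

For every prime `p` and every `m ≥ 3` there is an F-finite Gorenstein local domain `A` of
characteristic `p` and dimension `2` with Hilbert-Samuel multiplicity `m`, Hilbert-Kunz multiplicity
`m` and F-signature `0`; so `e_HK = s + (1 - s) e` holds with `e = m ≥ 3`. The example is
`A = 𝔽_p⟦y, z⟧[x] / (x ^ m - y ^ (m + 1))`.
-/

set_option autoImplicit false

namespace Pool.Agent.Results.MP_be9c2a_al.UlrichFrobenius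

open Pool.Agent.V1146.HKS

theorem result (p : ℕ) [hp : Fact p.Prime] (m : ℕ) (hm : 3 ≤ m) :
    ∃ (A : Type) (_ : CommRing A) (_ : IsDomain A) (_ : IsLocalRing A) (_ : CharP A p),
      IsNoetherianRing A ∧ (frobenius A p).Finite ∧ IsGorensteinOfDim A 2 ∧
      ∃ ε εHK s : ℝ, HasMultiplicity A 2 ε ∧ HasHilbertKunz A p 2 εHK ∧ HasFSignature A p 2 s ∧
        εHK = s + (1 - s) * ε ∧ ε = m ∧ s = 0 :=
  main p m hm

end Pool.Agent.Results.MP_be9c2a_al.UlrichFrobenius
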